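import Pool.Agent.Lib.MP_28303a_al.TW.Lemmas

/-! # COH1: coherence of rows with entries in a translate of a subgroup ring -/

set_option autoImplicit false
set_option linter.unusedSectionVars false
set_option linter.unusedVariables false

namespace Pool.Agent.NegK.TW.H14

universe u v w

open Matrix MonoidAlgebra

/-- Multiplication by an invertible matrix maps the row spaces isomorphically. -/
theorem range_equiv {A : Type u} [Ring A] {ι κ κ' : Type} [Fintype ι] [Fintype κ] [Fintype κ']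
    [DecidableEq κ] [DecidableEq κ']
    (z : Matrix ι κ A) (D : Matrix κ κ' A) (D' : Matrix κ' κ A) (h1 : D * D' = 1) :
    Nonempty (LinearMap.range (z * D).vecMulLinear ≃ₗ[A] LinearMap.range z.vecMulLinear) := by
  have hz : (z * D) * D' = z := by rw [Matrix.mul_assoc, h1, Matrix.mul_one]
  let f : LinearMap.range (z * D).vecMulLinear →ₗ[A] LinearMap.range z.vecMulLinear :=
    D'.vecMulLinear.restrict (by
      rintro _ ⟨x, rfl⟩
      refine ⟨x, ?_⟩
      show x ᵥ* z = (x ᵥ* (z * D)) ᵥ* D'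
      rw [Matrix.vecMul_vecMul, hz])
  let g : LinearMap.range z.vecMulLinear →ₗ[A] LinearMap.range (z * D).vecMulLinear :=
    D.vecMulLinear.restrict (by
      rintro _ ⟨x, rfl⟩
      refine ⟨x, ?_⟩
      show x ᵥ* (z * D) = (x ᵥ* z) ᵥ* D
      rw [Matrix.vecMul_vecMul])
  refine ⟨LinearEquiv.ofLinearMap f g ?_ ?_⟩
  · apply LinearMap.ext
    rintro ⟨_, x, rfl⟩
    apply Subtype.ext
    show ((x ᵥ* z) ᵥ* D) ᵥ* D' = x ᵥ* z
    rw [Matrix.vecMul_vecMul, h1, Matrix.vecMul_one]
  · apply LinearMap.ext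
    rintro ⟨_, x, rfl⟩
    apply Subtype.ext
    show ((x ᵥ* (z * D)) ᵥ* D') ᵥ* D = x ᵥ* (z * D)
    rw [Matrix.vecMul_vecMul x, hz, Matrix.vecMul_vecMul]

/-- COH1. -/
theorem coh1 (hmra : MraStatement.{u}) (hmrb : MrbStatement.{u}) (hmrc : MrcStatement.{u}) :
    Coh1Statement.{u} := by
  classical
  intro k Γ _ _ G hG ι κ _ _ z g hz
  let D : Matrix κ κ (MonoidAlgebra k Γ) := Matrix.diagonal fun j => single (g j) 1
  let D' : Matrix κ κ (MonoidAlgebra k Γ) := Matrix.diagonal fun j => single (g j)⁻¹ 1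
  have hD : D * D' = 1 := by
    show Matrix.diagonal _ * Matrix.diagonal _ = 1
    rw [Matrix.diagonal_mul_diagonal, ← Matrix.diagonal_one]
    congr 1
    funext j
    rw [MonoidAlgebra.single_mul_single, mul_inv_cancel, mul_one]
    rfl
  have hS : MSupp (Set.range G.subtype) (z * D) := by
    intro i j h hh
    have h1 : (z * D) i j = z i j * single (g j) 1 := Matrix.mul_diagonal _ _ _ _
    rw [h1] at hh
    obtain ⟨a, b, ha, hb, rfl⟩ := coeff_mul_ne_zero hh
    have h2 : b = g j := coeff_single_ne hb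
    rw [h2]
    exact ⟨⟨_, hz i j a ha⟩, rfl⟩
  obtain ⟨z₀, hz₀⟩ := hS.exists_map G.subtype_injective
  obtain ⟨n, hn⟩ := hmra (MonoidAlgebra k G) hG ι κ z₀
  have h1 := hmrb k G Γ G.subtype G.subtype_injective n ι κ z₀ hn
  rw [hz₀] at h1
  have h2 := hmrc (MonoidAlgebra k Γ) n ι κ (z * D) h1
  obtain ⟨e⟩ := range_equiv z D D' hD
  exact ⟨n, h2.congr e⟩

end Pool.Agent.NegK.TW.H14
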