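import Pool.Agent.Lib.MP_28303a_al.TW.Graph

/-! # LONG: stabilizers of long paths -/

set_option autoImplicit false
set_option linter.unusedSectionVars false
set_option linter.unusedVariables false

namespace Pool.Agent.NegK.TW.H14

universe u v w

theorem map_conj_stab {Γ : Type u} [Group Γ] {V : Type v} [MulAction Γ V] (g : Γ) (a b : V) :
    (MulAction.stabilizer Γ a ⊓ MulAction.stabilizer Γ b).map (MulAut.conj g).toMonoidHom =
      MulAction.stabilizer Γ (g • a) ⊓ MulAction.stabilizer Γ (g • b) := by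
  rw [Subgroup.map_inf _ _ _ (MulAut.conj g).injective,
    MulAction.stabilizer_smul_eq_stabilizer_map_conj,
    MulAction.stabilizer_smul_eq_stabilizer_map_conj]

theorem iInf_pairs {Γ : Type u} [Group Γ] (l : ℕ) (S : ℕ → Subgroup Γ) :
    (⨅ j : Fin (l + 1), (S j ⊓ S ((j : ℕ) + 1)) : Subgroup Γ) = ⨅ j : Fin (l + 2), S j := by
  apply le_antisymm
  · refine le_iInf fun j => ?_
    rcases Nat.lt_or_ge (j : ℕ) (l + 1) with h | h
    · exact (iInf_le (fun j : Fin (l + 1) => (S j ⊓ S ((j : ℕ) + 1) : Subgroup Γ))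
        ⟨j, h⟩).trans inf_le_left
    · have hj : (j : ℕ) = l + 1 := by omega
      rw [hj]
      exact (iInf_le (fun j : Fin (l + 1) => (S j ⊓ S ((j : ℕ) + 1) : Subgroup Γ))
        ⟨l, Nat.lt_succ_self l⟩).trans inf_le_right
  · refine le_iInf fun j => le_inf ?_ ?_
    · exact iInf_le (fun j : Fin (l + 2) => S j) ⟨j, by omega⟩
    · exact iInf_le (fun j : Fin (l + 2) => S j) ⟨(j : ℕ) + 1, by omega⟩

/-- LONG. A simple sufficient condition. -/
theorem long : LongStatement.{u} := by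
  intro Γ V _ _ G hL ι _ a b K hab hfg hK
  obtain ⟨m, hm⟩ := hL
  refine ⟨fun i => MulAction.stabilizer Γ (a i) ⊓ MulAction.stabilizer Γ (b i), m, 0, fun _ => 0,
    fun i => ⟨hK i, le_rfl⟩, ⟨fun _ _ => le_rfl, ?_, fun _ _ _ _ _ => le_rfl,
      fun _ _ _ _ _ h => absurd rfl h, fun _ _ h => absurd rfl h⟩⟩
  rintro S ⟨l, hl, v, i, g, h1, h2, h3, h4⟩ _
  have e : S = ⨅ j : Fin (l + 2), MulAction.stabilizer Γ (v j) := by
    rw [h4, ← iInf_pairs l (fun j => MulAction.stabilizer Γ (v j))]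
    congr 1
    funext j
    have := h3 (j : ℕ) (Nat.lt_succ_iff.1 j.2)
    rw [map_conj_stab, this.1, this.2]
  rw [e]
  exact hm l hl v h1 h2

end Pool.Agent.NegK.TW.H14
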