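import Pool.Agent.Lib.MP_28303a_al.TW.Lemmas

/-! # MRC: matrix resolutions give resolutions of row spaces -/

set_option autoImplicit false
set_option linter.unusedSectionVars false
set_option linter.unusedVariables false

namespace Pool.Agent.NegK.TW.H14

universe u v w

open Matrix

/-- MRC. -/
theorem mrc : MrcStatement.{u} := by
  intro A _ n
  induction n with
  | zero =>
    rintro ι κ _ _ z ⟨e, he, h1⟩
    let f : (ι → A) →ₗ[A] LinearMap.range z.vecMulLinear := z.vecMulLinear.rangeRestrict
    have hf : Function.Surjective f := z.vecMulLinear.surjective_rangeRestrict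
    let p : (ι → A) →ₗ[A] (ι → A) := LinearMap.id - e.vecMulLinear
    have hp : ∀ x, p x = x - x ᵥ* e := fun x => rfl
    have hker : LinearMap.ker z.vecMulLinear ≤ LinearMap.ker p := by
      intro x hx
      rw [LinearMap.mem_ker] at hx ⊢
      have h2 : x ᵥ* e = x := (h1 x).1 hx
      rw [hp, h2, sub_self]
    let s : LinearMap.range z.vecMulLinear →ₗ[A] (ι → A) :=
      ((LinearMap.ker z.vecMulLinear).liftQ p hker) ∘ₗ
        (z.vecMulLinear.quotKerEquivRange.symm : LinearMap.range z.vecMulLinear →ₗ[A]
          ((ι → A) ⧸ LinearMap.ker z.vecMulLinear))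
    have hsf : ∀ x, s (f x) = p x := by
      intro x
      have h3 : f x = z.vecMulLinear.quotKerEquivRange
          (Submodule.Quotient.mk x) := Subtype.ext rfl
      rw [h3]
      show ((LinearMap.ker z.vecMulLinear).liftQ p hker)
        (z.vecMulLinear.quotKerEquivRange.symm (z.vecMulLinear.quotKerEquivRange _)) = _
      rw [LinearEquiv.symm_apply_apply]
      rfl
    have hs : f ∘ₗ s = LinearMap.id := by
      apply LinearMap.ext
      intro y
      obtain ⟨x, rfl⟩ := hf y
      show f (s (f x)) = f x
      rw [hsf, hp, map_sub]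
      have h4 : f (x ᵥ* e) = 0 := by
        apply Subtype.ext
        show (x ᵥ* e) ᵥ* z = 0
        rw [h1, Matrix.vecMul_vecMul, he]
      rw [h4, sub_zero]
    exact ⟨Module.Finite.of_surjective f hf, Module.Projective.of_split s f hs⟩
  | succ n ih =>
    rintro ι κ _ _ z ⟨μ, _, y, h1, h2⟩
    refine ⟨ι → A, inferInstance, inferInstance, z.vecMulLinear.rangeRestrict, inferInstance,
      inferInstance, z.vecMulLinear.surjective_rangeRestrict, ?_⟩
    refine (ih μ ι y h2).congr (LinearEquiv.ofEq _ _ ?_)
    ext x
    rw [LinearMap.ker_rangeRestrict, LinearMap.mem_ker, LinearMap.mem_range]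
    exact (h1 x).symm

end Pool.Agent.NegK.TW.H14
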