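import Pool.Agent.Lib.MP_28303a_al.TW.Graph

/-! # TD, HALF: distances and half trees in trees -/

set_option autoImplicit false
set_option linter.unusedSectionVars false
set_option linter.unusedVariables false

namespace Pool.Agent.NegK.TW.H14

universe u v w

open SimpleGraph

/-- TD. Distances in trees. -/
theorem td : TdStatement.{u} := by
  intro V G hG
  refine ⟨fun v w x h => ?_, fun v w w' x h h' e e' => ?_⟩
  · have := hG.dist_eq_dist_add_one_of_adj x h
    rwa [dist_comm (u := x), dist_comm (u := x)] at this
  · obtain ⟨p, hp⟩ := hG.connected.exists_walk_length_eq_dist w x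
    obtain ⟨p', hp'⟩ := hG.connected.exists_walk_length_eq_dist w' x
    have h1 : (Walk.cons h p).IsPath :=
      Walk.isPath_of_length_eq_dist _ (by rw [Walk.length_cons, hp, e])
    have h2 : (Walk.cons h' p').IsPath :=
      Walk.isPath_of_length_eq_dist _ (by rw [Walk.length_cons, hp', e'])
    have h3 := (hG.existsUnique_path v x).unique h1 h2
    have h4 := congrArg Walk.snd h3
    rwa [Walk.snd_cons, Walk.snd_cons] at h4

theorem half_aux (htd : TdStatement.{u}) (V : Type u) (G : SimpleGraph V) (hG : G.IsTree)
    (o t a b : V) (hot : G.Adj o t) (hab : G.Adj a b) (h1 : ¬ (a = t ∧ b = o))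
    (h : G.dist a t < G.dist a o) : G.dist b t < G.dist b o := by
  obtain ⟨T1, T2⟩ := htd V G hG
  by_contra hb
  have e1 := T1 o t a hot
  have e2 := T1 o t b hot
  have e3 := T1 a b o hab
  have e4 := T1 a b t hab
  rw [dist_comm (u := o) (v := a), dist_comm (u := t) (v := a)] at e1
  rw [dist_comm (u := o) (v := b), dist_comm (u := t) (v := b)] at e2
  have f1 : G.dist a o = G.dist a t + 1 := by omega
  have f2 : G.dist b t = G.dist b o + 1 := by omega
  have f3 : G.dist b o = G.dist a t := by omega
  rcases Nat.eq_zero_or_pos (G.dist a t) with h0 | h0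
  · apply h1
    refine ⟨(hG.connected.dist_eq_zero_iff).1 h0, (hG.connected.dist_eq_zero_iff).1 (by omega)⟩
  · obtain ⟨p, hp⟩ := hG.connected.exists_walk_length_eq_dist a t
    cases p with
    | nil =>
      rw [dist_self] at h0
      omega
    | @cons _ c _ hac p =>
      rw [Walk.length_cons] at hp
      have g1 := dist_le p
      have g2 := T1 a c o hac
      have g3 := T1 a c t hac
      have g4 : G.dist c o ≤ G.dist c t + 1 := by
        have := hG.connected.dist_triangle (u := c) (v := t) (w := o)
        have h5 : G.dist t o = 1 := dist_eq_one_iff_adj.2 hot.symm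
        omega
      have g5 : b = c := T2 a b c o hab hac (by omega) (by omega)
      subst g5
      omega

/-- HALF. Half trees. -/
theorem half (htd : TdStatement.{u}) : HalfStatement.{u} := by
  intro V G hG o t a b hot hab h1 h2
  refine ⟨half_aux htd V G hG o t a b hot hab h2, ?_⟩
  refine half_aux htd V G hG o t b a hot hab.symm ?_
  rintro ⟨rfl, rfl⟩
  exact h1 ⟨rfl, rfl⟩

end Pool.Agent.NegK.TW.H14
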