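import Pool.Agent.Lib.MP_28303a_al.TW.Graph

/-! # LEV: levels of oriented edges of a tree -/

set_option autoImplicit false
set_option linter.unusedSectionVars false
set_option linter.unusedVariables false

namespace Pool.Agent.NegK.TW.H14

universe u v w

open SimpleGraph

section

variable {Γ V E : Type u} [Group Γ] [MulAction Γ V] [MulAction Γ E] {G : SimpleGraph V}
  {T : OTree Γ V E}

theorem adj_src_tgt (hT : T.Of G) (η : Dt E) : G.Adj (T.src η) (T.tgt η) := by
  obtain ⟨e, b⟩ := η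
  cases b
  · exact (hT.adj e).symm
  · exact hT.adj e

theorem dt_ext_of (hT : T.Of G) (η η' : Dt E) (h1 : T.src η = T.src η')
    (h2 : T.tgt η = T.tgt η') : η = η' := by
  obtain ⟨e, b⟩ := η
  obtain ⟨e', b'⟩ := η'
  cases b <;> cases b'
  · have : e = e' := hT.inj e e' h2 h1
    rw [this]
  · exact absurd h1 (hT.anti e e' h2)
  · exact absurd h2 (hT.anti e e' h1)
  · have : e = e' := hT.inj e e' h1 h2
    rw [this]

theorem prev_ne (hT : T.Of G) (η η' : Dt E) (h : T.prev.R η η') : T.src η' ≠ T.tgt η := by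
  obtain ⟨e, b⟩ := η
  obtain ⟨e', b'⟩ := η'
  obtain ⟨h1, h2⟩ := h
  intro h3
  cases b <;> cases b'
  · exact hT.anti e' e h1 h3
  · exact h2 ⟨hT.inj e' e h3 h1, by simp⟩
  · exact h2 ⟨hT.inj e' e h1 h3, by simp⟩
  · exact hT.anti e' e h3 h1

/-- The two cases of the level. -/
theorem lev_cases (htd : TdStatement.{u}) (hG : G.IsTree) (hT : T.Of G) (x : V) (η : Dt E) :
    (G.dist (T.src η) x = G.dist (T.tgt η) x + 1 ∧ lev T G x η = (G.dist (T.tgt η) x : ℤ)) ∨
    (G.dist (T.tgt η) x = G.dist (T.src η) x + 1 ∧ lev T G x η = -(G.dist (T.tgt η) x : ℤ)) := by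
  by_cases h : G.dist (T.src η) x = G.dist (T.tgt η) x + 1
  · exact Or.inl ⟨h, by rw [lev, if_pos h]⟩
  · refine Or.inr ⟨?_, by rw [lev, if_neg h]⟩
    rcases (htd V G hG).1 _ _ x (adj_src_tgt hT η) with h' | h'
    · exact absurd h' h
    · exact h'

/-- One step from an edge pointing towards `x`. -/
theorem lev_towards (htd : TdStatement.{u}) (hG : G.IsTree) (hT : T.Of G) (x : V) (η η' : Dt E)
    (h : T.prev.R η η') (h0 : G.dist (T.src η) x = G.dist (T.tgt η) x + 1) :
    lev T G x η' = lev T G x η + 1 := by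
  have hne := prev_ne hT η η' h
  have h1 : T.tgt η' = T.src η := h.1
  have e1 : lev T G x η = (G.dist (T.tgt η) x : ℤ) := by rw [lev, if_pos h0]
  rcases lev_cases htd hG hT x η' with ⟨a1, a2⟩ | ⟨a1, a2⟩
  · rw [a2, e1, h1, h0]
    push_cast
    ring
  · exfalso
    apply hne
    refine (htd V G hG).2 (T.src η) (T.src η') (T.tgt η) x ?_ (adj_src_tgt hT η) ?_ h0
    · rw [← h1]
      exact (adj_src_tgt hT η').symm
    · rw [← h1]
      exact a1

/-- LEV. Levels. -/
theorem lev (htd : TdStatement.{u}) : LevStatement.{u} := by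
  intro Γ V E _ _ _ G T hG hT
  have key : ∀ (x : V) (η η' : Dt E), T.prev.R η η' → TW.lev T G x η < TW.lev T G x η' := by
    intro x η η' h
    rcases lev_cases htd hG hT x η with ⟨a1, a2⟩ | ⟨a1, a2⟩
    · rw [lev_towards htd hG hT x η η' h a1]
      omega
    · have h1 : T.tgt η' = T.src η := h.1
      rcases lev_cases htd hG hT x η' with ⟨b1, b2⟩ | ⟨b1, b2⟩
      · rw [a2, b2]
        omega
      · rw [a2, b2, h1]
        omega
  refine ⟨fun η₀ => ⟨TW.lev T G (T.tgt η₀), ?_, key _, ?_, ?_⟩, key⟩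
  · have h1 : G.dist (T.src η₀) (T.tgt η₀) = 1 := dist_eq_one_iff_adj.2 (adj_src_tgt hT η₀)
    have h2 : G.dist (T.tgt η₀) (T.tgt η₀) = 0 := dist_self
    rw [TW.lev, if_pos (by rw [h1, h2]), h2]
    rfl
  · intro a b h ha
    rcases lev_cases htd hG hT (T.tgt η₀) a with ⟨a1, a2⟩ | ⟨a1, a2⟩
    · exact lev_towards htd hG hT _ a b h a1
    · exfalso
      omega
  · intro a a' b h h' ha haa
    rcases lev_cases htd hG hT (T.tgt η₀) a with ⟨a1, a2⟩ | ⟨a1, a2⟩
    · rcases lev_cases htd hG hT (T.tgt η₀) a' with ⟨b1, b2⟩ | ⟨b1, b2⟩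
      · have e : T.src a = T.src a' := h.1.symm.trans h'.1
        refine dt_ext_of hT a a' e ?_
        refine (htd V G hG).2 (T.src a) (T.tgt a) (T.tgt a') (T.tgt η₀) (adj_src_tgt hT a) ?_ a1 ?_
        · rw [e]
          exact adj_src_tgt hT a'
        · rw [e]
          exact b1
      · exfalso
        omega
    · exfalso
      omega

end

end Pool.Agent.NegK.TW.H14
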